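import Pool.Agent.Helper64.CT.Stmts

/-! PRI: a prime triangle-free graph with (I) and (II) has a separation system. -/

set_option autoImplicit false

namespace Pool.Agent.Helper64.CT

theorem st_PRI (hA : ST_L3A) (hC : ST_L3C) (hD : ST_L3D) : ST_PRI := by
  intro V G hpc htf hI hII hpr
  obtain ⟨s, hs⟩ := exists_Sys hII
  refine ⟨s, ?_, ?_⟩
  · intro c x y hx hy hxy
    exact (hs c).1 x y (Comp.adj hx hy hxy)
  · intro n a b c ha hb hc hab hac hbc
    have kA := hA V G s hpc htf hI hpr hs
    have kC := hC V G htf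
    have kD := hD V G s hpc htf hI hpr hs
    have n1 : ¬ (s c a ≠ s c b ∧ s a b ≠ s a c) := fun h =>
      kA n a b c ha hb hc hab hac hbc h.1 h.2
    have n2 : ¬ (s c a ≠ s c b ∧ s b a ≠ s b c) := fun h =>
      kA n b a c hb ha hc hab.symm hbc hac (Ne.symm h.1) h.2
    have n3 : ¬ (s a b ≠ s a c ∧ s b a ≠ s b c) := fun h =>
      kA n b c a hb hc ha hbc hab.symm hac.symm h.1 (Ne.symm h.2)
    have n4 : ¬ (s c a = s c b ∧ s a b = s a c ∧ s b a = s b c) := by
      rintro ⟨e1, e2, e3⟩
      by_cases qC : Comp G c a b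
      · by_cases qA : Comp G a b c
        · by_cases qB : Comp G b a c
          · exact hI ⟨n, a, b, c, ha, hb, hc, qC, qA, qB⟩
          · have := kC n a c b ha hc hb hac hab hbc.symm qB qA.symm qC
            exact (hs b).2 a c this e3
        · by_cases qB : Comp G b a c
          · have := kC n b c a hb hc ha hbc hab.symm hac.symm qA qB.symm qC.symm
            exact (hs a).2 b c this e2
          · exact kD n b c a hb hc ha hbc hab.symm hac.symm qA (fun h => qB h.symm) e2 e3.symm
              e1.symm
      · by_cases qA : Comp G a b c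
        · by_cases qB : Comp G b a c
          · have := kC n a b c ha hb hc hab hac hbc qC qA qB
            exact (hs c).2 a b this e1
          · exact kD n b a c hb ha hc hab.symm hbc hac (fun h => qC h.symm) qB e1.symm e3 e2
        · exact kD n a b c ha hb hc hab hac hbc qC qA e1 e2 e3
    unfold Ex1
    by_cases p1 : s c a ≠ s c b
    · left
      exact ⟨p1, fun h => n1 ⟨p1, h⟩, fun h => n2 ⟨p1, h⟩⟩
    · by_cases p2 : s a b ≠ s a c
      · right; left
        exact ⟨p1, p2, fun h => n3 ⟨p2, h⟩⟩
      · right; right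
        refine ⟨p1, p2, fun h => n4 ⟨not_not.1 p1, not_not.1 p2, h⟩⟩

end Pool.Agent.Helper64.CT
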